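import Mathlib

/-! Span of words in isometries with orthogonal ranges. -/

namespace Pool.Agent.Lib.MP_ced2c5_an

open scoped ComplexConjugate

section

variable {ι : Type*} [DecidableEq ι] {B : Type*} [Ring B] [StarRing B]

/-- Relations: each `t i` is an isometry and the ranges are pairwise orthogonal. -/
def Rel (t : ι → B) : Prop := ∀ i j, star (t i) * t j = if i = j then 1 else 0

/-- The word operator. -/
def wd (t : ι → B) (l : List ι) : B := (l.map t).prod

@[simp] lemma wd_nil (t : ι → B) : wd t [] = 1 := by simp [wd]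

lemma wd_cons (t : ι → B) (i : ι) (l : List ι) : wd t (i :: l) = t i * wd t l := by simp [wd]

lemma wd_append (t : ι → B) (l m : List ι) : wd t (l ++ m) = wd t l * wd t m := by simp [wd]

lemma star_wd_mul_wd {t : ι → B} (h : Rel t) : ∀ l m : List ι,
    (∃ n, star (wd t l) * wd t m = wd t n) ∨ (∃ n, star (wd t l) * wd t m = star (wd t n)) ∨
      star (wd t l) * wd t m = 0
  | [], m => Or.inl ⟨m, by simp⟩
  | l, [] => Or.inr (Or.inl ⟨l, by simp⟩)
  | i :: l, j :: m => by
      have key : star (wd t (i :: l)) * wd t (j :: m) =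
          star (wd t l) * ((star (t i) * t j) * wd t m) := by
        rw [wd_cons, wd_cons, star_mul]; simp [mul_assoc]
      rw [key, h i j]
      by_cases hij : i = j
      · simp only [hij, if_true, one_mul]
        exact star_wd_mul_wd h l m
      · simp only [hij, if_false, zero_mul, mul_zero]
        exact Or.inr (Or.inr trivial)

lemma star_wd_mul_wd_self {t : ι → B} (h : Rel t) : ∀ l : List ι, star (wd t l) * wd t l = 1
  | [] => by simp
  | i :: l => by
      have key : star (wd t (i :: l)) * wd t (i :: l) =
          star (wd t l) * ((star (t i) * t i) * wd t l) := by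
        rw [wd_cons, star_mul]; simp [mul_assoc]
      rw [key, h i i]
      simp [star_wd_mul_wd_self h l]

variable [Algebra ℂ B] [StarModule ℂ B]

/-- Words `t_α t_β^*`. -/
def ww (t : ι → B) (p : List ι × List ι) : B := wd t p.1 * star (wd t p.2)

lemma ww_mul_mem {t : ι → B} (h : Rel t) (p q : List ι × List ι) :
    ww t p * ww t q ∈ Submodule.span ℂ (Set.range (ww t)) := by
  obtain ⟨a, b⟩ := p
  obtain ⟨c, d⟩ := q
  have e : ww t (a, b) * ww t (c, d) = wd t a * (star (wd t b) * wd t c) * star (wd t d) := by
    simp [ww, mul_assoc]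
  rw [e]
  rcases star_wd_mul_wd h b c with ⟨n, hn⟩ | ⟨n, hn⟩ | hn
  · rw [hn]
    apply Submodule.subset_span
    exact ⟨(a ++ n, d), by simp [ww, wd_append]⟩
  · rw [hn]
    apply Submodule.subset_span
    exact ⟨(a, d ++ n), by simp [ww, wd_append, mul_assoc]⟩
  · rw [hn]; simp

/-- The span of the words is a star subalgebra. -/
def cspan (t : ι → B) (h : Rel t) : StarSubalgebra ℂ B where
  carrier := Submodule.span ℂ (Set.range (ww t))
  mul_mem' := by
    intro a b ha hb
    simp only [SetLike.mem_coe] at ha hb ⊢
    induction ha using Submodule.span_induction with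
    | mem x hx =>
      obtain ⟨p, rfl⟩ := hx
      induction hb using Submodule.span_induction with
      | mem y hy =>
        obtain ⟨q, rfl⟩ := hy
        exact ww_mul_mem h p q
      | zero => simp
      | add y z _ _ hy hz => rw [mul_add]; exact Submodule.add_mem _ hy hz
      | smul c y _ hy => rw [mul_smul_comm]; exact Submodule.smul_mem _ _ hy
    | zero => simp
    | add x z _ _ hx hz => rw [add_mul]; exact Submodule.add_mem _ hx hz
    | smul c x _ hx => rw [smul_mul_assoc]; exact Submodule.smul_mem _ _ hx
  add_mem' := by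
    intro a b ha hb
    exact Submodule.add_mem _ ha hb
  algebraMap_mem' := by
    intro r
    simp only [SetLike.mem_coe]
    rw [Algebra.algebraMap_eq_smul_one]
    apply Submodule.smul_mem
    apply Submodule.subset_span
    exact ⟨([], []), by simp [ww]⟩
  star_mem' := by
    intro a ha
    simp only [SetLike.mem_coe] at ha ⊢
    induction ha using Submodule.span_induction with
    | mem x hx =>
      obtain ⟨⟨a, b⟩, rfl⟩ := hx
      apply Submodule.subset_span
      exact ⟨(b, a), by simp [ww]⟩
    | zero => simp
    | add x z _ _ hx hz => rw [star_add]; exact Submodule.add_mem _ hx hz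
    | smul c x _ hx => rw [star_smul]; exact Submodule.smul_mem _ _ hx

lemma mem_cspan {t : ι → B} {h : Rel t} {x : B} :
    x ∈ cspan t h ↔ x ∈ Submodule.span ℂ (Set.range (ww t)) := Iff.rfl

lemma gen_mem_cspan {t : ι → B} (h : Rel t) (i : ι) : t i ∈ cspan t h := by
  rw [mem_cspan]
  apply Submodule.subset_span
  exact ⟨([i], []), by simp [ww, wd]⟩

lemma adjoin_le_cspan {t : ι → B} (h : Rel t) :
    StarAlgebra.adjoin ℂ (Set.range t) ≤ cspan t h := by
  apply StarAlgebra.adjoin_le
  rintro _ ⟨i, rfl⟩
  exact gen_mem_cspan h i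

lemma wd_mem_adjoin (t : ι → B) (l : List ι) : wd t l ∈ StarAlgebra.adjoin ℂ (Set.range t) := by
  induction l with
  | nil => simp
  | cons i l ih =>
    rw [wd_cons]
    exact mul_mem (StarAlgebra.subset_adjoin ℂ _ ⟨i, rfl⟩) ih

lemma ww_mem_adjoin (t : ι → B) (p : List ι × List ι) :
    ww t p ∈ StarAlgebra.adjoin ℂ (Set.range t) :=
  mul_mem (wd_mem_adjoin t _) (star_mem (wd_mem_adjoin t _))

lemma cspan_eq_adjoin {t : ι → B} (h : Rel t) :
    cspan t h = StarAlgebra.adjoin ℂ (Set.range t) := by
  apply le_antisymm _ (adjoin_le_cspan h)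
  intro x hx
  rw [mem_cspan] at hx
  induction hx using Submodule.span_induction with
  | mem x hx => obtain ⟨p, rfl⟩ := hx; exact ww_mem_adjoin t p
  | zero => exact zero_mem _
  | add x y _ _ hx hy => exact add_mem hx hy
  | smul c x _ hx => exact SMulMemClass.smul_mem c hx

end

end Pool.Agent.Lib.MP_ced2c5_an
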