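import Mathlib
import Pool.Agent.Lib.MP_ced2c5_an.CSpan

/-! Existence of the universal C*-algebra of a sequence of isometries with orthogonal ranges. -/

namespace Pool.Agent.Lib.MP_ced2c5_an

open scoped ENNReal Classical

noncomputable section

/-- Evaluation of a formal combination of words. -/
def ev {ι : Type*} {B : Type*} [Ring B] [StarRing B] [Algebra ℂ B] (t : ι → B)
    (c : (List ι × List ι) →₀ ℂ) : B := Finsupp.linearCombination ℂ (ww t) c

lemma mem_cspan_iff_ev {ι : Type*} [DecidableEq ι] {B : Type*} [Ring B] [StarRing B] [Algebra ℂ B]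
    [StarModule ℂ B] {t : ι → B} (h : Rel t) (x : B) : x ∈ cspan t h ↔ ∃ c, ev t c = x := by
  rw [mem_cspan, ← Finsupp.range_linearCombination]
  rfl

lemma map_wd {ι A B : Type*} [Ring A] [StarRing A] [Algebra ℂ A] [Ring B] [StarRing B] [Algebra ℂ B]
    (φ : A →⋆ₐ[ℂ] B) (s : ι → A) (l : List ι) : φ (wd s l) = wd (fun i => φ (s i)) l := by
  induction l with
  | nil => simp [wd]
  | cons i l ih => simp only [wd, List.map_cons, List.prod_cons, map_mul] at ih ⊢; rw [ih]

lemma map_ww {ι A B : Type*} [Ring A] [StarRing A] [Algebra ℂ A] [Ring B] [StarRing B] [Algebra ℂ B]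
    (φ : A →⋆ₐ[ℂ] B) (s : ι → A) (p : List ι × List ι) :
    φ (ww s p) = ww (fun i => φ (s i)) p := by
  rw [ww, ww, map_mul, map_star, map_wd, map_wd]

lemma map_ev {ι A B : Type*} [Ring A] [StarRing A] [Algebra ℂ A] [Ring B] [StarRing B] [Algebra ℂ B]
    (φ : A →⋆ₐ[ℂ] B) (s : ι → A) (c : (List ι × List ι) →₀ ℂ) :
    φ (ev s c) = ev (fun i => φ (s i)) c := by
  rw [ev, ev, Finsupp.linearCombination_apply, Finsupp.linearCombination_apply, Finsupp.sum,
    Finsupp.sum, map_sum]
  apply Finset.sum_congr rfl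
  intro p _
  rw [map_smul, map_ww]

/-- Extension of an assignment of generators that is norm decreasing on words. -/
lemma exists_hom {ι A B : Type*} [DecidableEq ι] [CStarAlgebra A] [CStarAlgebra B]
    (s : ι → A) (t : ι → B) (hs : Rel s) (ht : Rel t)
    (hd : closure ((cspan s hs : StarSubalgebra ℂ A) : Set A) = Set.univ)
    (hn : ∀ c, ‖ev t c‖ ≤ ‖ev s c‖) : ∃ φ : A →⋆ₐ[ℂ] B, ∀ i, φ (s i) = t i := by
  let u : ι → A × B := fun i => (s i, t i)
  have hu : Rel u := by
    intro i j
    apply Prod.ext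
    · have := hs i j
      by_cases h : i = j
      · simpa [u, h] using this
      · simpa [u, h] using this
    · have := ht i j
      by_cases h : i = j
      · simpa [u, h] using this
      · simpa [u, h] using this
  let K : StarSubalgebra ℂ (A × B) := (cspan u hu).topologicalClosure
  have hKc : IsClosed (K : Set (A × B)) := StarSubalgebra.isClosed_topologicalClosure _
  let p1 : K →⋆ₐ[ℂ] A := (StarAlgHom.fst ℂ A B).comp K.subtype
  let p2 : K →⋆ₐ[ℂ] B := (StarAlgHom.snd ℂ A B).comp K.subtype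
  have hnorm0 : ∀ x ∈ (cspan u hu : Set (A × B)), ‖x‖ = ‖x.1‖ := by
    intro x hx
    obtain ⟨c, rfl⟩ := (mem_cspan_iff_ev hu x).1 hx
    have e1 : (ev u c).1 = ev s c := map_ev (StarAlgHom.fst ℂ A B) u c
    have e2 : (ev u c).2 = ev t c := map_ev (StarAlgHom.snd ℂ A B) u c
    rw [Prod.norm_def, e1, e2]
    exact max_eq_left (hn c)
  have hnorm : ∀ x ∈ closure (cspan u hu : Set (A × B)), ‖x‖ = ‖x.1‖ := by
    intro x hx
    have hcl : IsClosed {x : A × B | ‖x‖ = ‖x.1‖} :=
      isClosed_eq continuous_norm (continuous_norm.comp continuous_fst)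
    exact closure_minimal (fun y hy => hnorm0 y hy) hcl hx
  have hiso : Isometry p1 := by
    apply AddMonoidHomClass.isometry_of_norm
    intro x
    have hx : (x : A × B) ∈ closure (cspan u hu : Set (A × B)) := by
      have := x.2
      rwa [← SetLike.mem_coe, StarSubalgebra.topologicalClosure_coe] at this
    exact (hnorm _ hx).symm
  have hcomp : CompleteSpace K := hKc.completeSpace_coe
  have hclosed : IsClosed (Set.range p1) := hiso.isClosedEmbedding.isClosed_range
  have huK : ∀ i, u i ∈ K := fun i =>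
    (StarSubalgebra.le_topologicalClosure _) (gen_mem_cspan hu i)
  have hsurj : Function.Surjective p1 := by
    intro a
    have h1 : ((cspan s hs : StarSubalgebra ℂ A) : Set A) ⊆ Set.range p1 := by
      intro y hy
      obtain ⟨c, rfl⟩ := (mem_cspan_iff_ev hs y).1 hy
      have h2 : ev u c ∈ K :=
        (StarSubalgebra.le_topologicalClosure _) ((mem_cspan_iff_ev hu _).2 ⟨c, rfl⟩)
      refine ⟨⟨ev u c, h2⟩, ?_⟩
      exact map_ev (StarAlgHom.fst ℂ A B) u c
    have h2 := closure_minimal h1 hclosed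
    rw [hd] at h2
    exact h2 (Set.mem_univ a)
  let e : K ≃⋆ₐ[ℂ] A := StarAlgEquiv.ofBijective p1 ⟨hiso.injective, hsurj⟩
  refine ⟨p2.comp (e.symm : A →⋆ₐ[ℂ] K), ?_⟩
  intro i
  have h1 : e ⟨u i, huK i⟩ = s i := rfl
  have h2 : e.symm (s i) = ⟨u i, huK i⟩ := by rw [← h1]; simp
  show p2 (e.symm (s i)) = t i
  rw [h2]
  rfl

end

end Pool.Agent.Lib.MP_ced2c5_an
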