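import Mathlib
import Pool.Agent.Lib.MP_ced2c5_an.Univ

/-! Two homomorphisms with the same moments give the same functional. -/

namespace Pool.Agent.Lib.MP_ced2c5_an

open scoped ENNReal Classical

noncomputable section

lemma agree {ι O D : Type*} [DecidableEq ι] [CStarAlgebra O] [CStarAlgebra D] (μ : D →L[ℂ] ℂ)
    (φ₁ φ₂ : O →⋆ₐ[ℂ] D) (s : ι → O) (hs : Rel s)
    (hd : closure ((cspan s hs : StarSubalgebra ℂ O) : Set O) = Set.univ)
    (t₁ t₂ : ι → D) (h1 : ∀ i, φ₁ (s i) = t₁ i) (h2 : ∀ i, φ₂ (s i) = t₂ i)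
    (h : ∀ p, μ (ww t₁ p) = μ (ww t₂ p)) (a : O) : μ (φ₁ a) = μ (φ₂ a) := by
  have hcl : IsClosed {a : O | μ (φ₁ a) = μ (φ₂ a)} := by
    apply isClosed_eq
    · exact μ.continuous.comp (AddMonoidHomClass.continuous_of_bound φ₁ 1 (fun x => by
        rw [one_mul]; exact NonUnitalStarAlgHom.norm_apply_le φ₁ x))
    · exact μ.continuous.comp (AddMonoidHomClass.continuous_of_bound φ₂ 1 (fun x => by
        rw [one_mul]; exact NonUnitalStarAlgHom.norm_apply_le φ₂ x))
  have hsub : ((cspan s hs : StarSubalgebra ℂ O) : Set O) ⊆ {a : O | μ (φ₁ a) = μ (φ₂ a)} := by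
    intro a ha
    obtain ⟨c, rfl⟩ := (mem_cspan_iff_ev hs a).1 ha
    have e1 : φ₁ (ev s c) = ev t₁ c := by
      rw [map_ev]; congr 1; funext i; exact h1 i
    have e2 : φ₂ (ev s c) = ev t₂ c := by
      rw [map_ev]; congr 1; funext i; exact h2 i
    show μ (φ₁ (ev s c)) = μ (φ₂ (ev s c))
    rw [e1, e2, ev, ev, Finsupp.linearCombination_apply, Finsupp.linearCombination_apply,
      Finsupp.sum, Finsupp.sum, map_sum, map_sum]
    apply Finset.sum_congr rfl
    intro p _
    rw [map_smul, map_smul, h p]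
  have hall := closure_minimal hsub hcl
  rw [hd] at hall
  exact hall (Set.mem_univ a)

end

end Pool.Agent.Lib.MP_ced2c5_an
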