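import Mathlib

/-! General facts on C*-algebras: isometries from near-scalar elements; pure infiniteness. -/

namespace Pool.Agent.Lib.MP_ced2c5_an

noncomputable section

/-- If `a^* a` is close to a positive scalar then `a w` is an isometry for some `w`. -/
lemma exists_isometry_of_near {A : Type*} [CStarAlgebra A] (a : A) (c : ℝ) (hc : 0 < c)
    (h : ‖star a * a - (c : ℂ) • (1 : A)‖ < c) : ∃ w : A, star (a * w) * (a * w) = 1 := by
  let _ := CStarAlgebra.spectralOrder A
  let _ := CStarAlgebra.spectralOrderedRing A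
  set z := star a * a with hz
  have hz0 : 0 ≤ z := star_mul_self_nonneg a
  have hcc : (c : ℂ) ≠ 0 := by exact_mod_cast hc.ne'
  have hu1 : IsUnit (1 - (1 - (c : ℂ)⁻¹ • z)) := by
    apply (Units.oneSub (1 - (c : ℂ)⁻¹ • z) _).isUnit
    have e : (1 : A) - (c : ℂ)⁻¹ • z = -((c : ℂ)⁻¹ • (z - (c : ℂ) • (1 : A))) := by
      rw [smul_sub, smul_smul, inv_mul_cancel₀ hcc, one_smul, neg_sub]
    rw [e, norm_neg, norm_smul, norm_inv]
    simp only [Complex.norm_real, Real.norm_eq_abs, abs_of_pos hc]
    rw [inv_mul_lt_iff₀ hc, mul_one]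
    exact h
  have hu2 : IsUnit ((c : ℂ)⁻¹ • z) := by simpa using hu1
  have hu : IsUnit z := by
    have : z = (Units.mk0 (c : ℂ) hcc) • ((c : ℂ)⁻¹ • z) := by
      rw [Units.smul_def, smul_smul]; simp [hcc]
    rw [this]
    exact hu2.smul _
  set r := CFC.sqrt z with hr
  have hrr : r * r = z := CFC.sqrt_mul_sqrt_self z hz0
  have hrs : star r = r := (CFC.sqrt_nonneg z).isSelfAdjoint
  have hur : IsUnit r := by
    have : IsUnit (r ^ 2) := by rw [pow_two, hrr]; exact hu
    exact (isUnit_pow_iff two_ne_zero).1 this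
  obtain ⟨u, hu'⟩ := hur
  refine ⟨(↑(u⁻¹) : A), ?_⟩
  have h1 : star ((↑(u⁻¹) : A)) * r = 1 := by
    have : star (r * (↑(u⁻¹) : A)) = 1 := by rw [← hu']; simp
    rwa [star_mul, hrs] at this
  have h2 : r * (↑(u⁻¹) : A) = 1 := by rw [← hu']; simp
  calc star (a * (↑(u⁻¹) : A)) * (a * (↑(u⁻¹) : A))
      = star ((↑(u⁻¹) : A)) * (star a * a) * (↑(u⁻¹) : A) := by
        rw [star_mul]; simp only [mul_assoc]
    _ = (star ((↑(u⁻¹) : A)) * r) * (r * (↑(u⁻¹) : A)) := by
        rw [← hz, ← hrr]; simp only [mul_assoc]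
    _ = 1 := by rw [h1, h2, one_mul]

/-- `p` is an infinite projection: a projection equivalent to a proper subprojection. -/
def InfProj {A : Type*} [Ring A] [StarRing A] (p : A) : Prop :=
  star p = p ∧ p * p = p ∧ ∃ w : A, star w * w = p ∧ p * (w * star w) = w * star w ∧ w * star w ≠ p

/-- A closed star subalgebra `K` of `A` is hereditary if `0 ≤ x ≤ y ∈ K` implies `x ∈ K`. -/
def Hered {A : Type*} [CStarAlgebra A] (K : NonUnitalStarSubalgebra ℂ A) : Prop :=
  IsClosed (K : Set A) ∧
    ∀ x y : A, y ∈ K → (∃ c, x = star c * c) → (∃ d, y - x = star d * d) → x ∈ K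

/-- Every nonzero hereditary C*-subalgebra contains an infinite projection. -/
def PurInf (A : Type*) [CStarAlgebra A] : Prop :=
  ∀ K : NonUnitalStarSubalgebra ℂ A, Hered K → (∃ x ∈ K, x ≠ 0) → ∃ p ∈ K, InfProj p

/-- Cancellation property implies pure infiniteness. -/
lemma purInf_of {A : Type*} [CStarAlgebra A]
    (hK : ∀ y : A, y ≠ 0 → ∃ b : A, star (y * b) * (y * b) = 1)
    (s : A) (hs : star s * s = 1) (hs' : s * star s ≠ 1) : PurInf A := by
  intro K hK' hne
  obtain ⟨x, hx, hx0⟩ := hne
  let _ := CStarAlgebra.spectralOrder A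
  let _ := CStarAlgebra.spectralOrderedRing A
  obtain ⟨a, ha⟩ : ∃ a, a = star x * x := ⟨_, rfl⟩
  have haK : a ∈ K := by rw [ha]; exact mul_mem (star_mem hx) hx
  have hastar : star a = a := by rw [ha, star_mul, star_star]
  have ha0 : a ≠ 0 := by
    intro h
    rw [ha] at h
    exact hx0 (CStarRing.star_mul_self_eq_zero_iff x |>.1 h)
  obtain ⟨b, hb⟩ := hK a ha0
  obtain ⟨v, hv⟩ : ∃ v, v = a * b := ⟨_, rfl⟩
  rw [← hv] at hb
  refine ⟨v * star v, ?_, ?_, ?_, v * s * star v, ?_, ?_, ?_⟩
  · apply hK'.2 (v * star v) ((‖b * star b‖ : ℂ) • (a * a))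
    · exact SMulMemClass.smul_mem _ (mul_mem haK haK)
    · exact ⟨star v, by simp⟩
    · have h1 : b * star b ≤ algebraMap ℝ A ‖b * star b‖ :=
        IsSelfAdjoint.le_algebraMap_norm_self (IsSelfAdjoint.mul_star_self b)
      have h2 : 0 ≤ algebraMap ℝ A ‖b * star b‖ - b * star b := sub_nonneg.2 h1
      obtain ⟨e, he⟩ := CStarAlgebra.nonneg_iff_eq_star_mul_self.1 h2
      refine ⟨e * a, ?_⟩
      have : star (e * a) * (e * a) = a * (star e * e) * a := by
        rw [star_mul, hastar]; simp only [mul_assoc]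
      rw [this, ← he, hv, star_mul, hastar, mul_sub, sub_mul]
      congr 1
      · rw [Algebra.algebraMap_eq_smul_one, mul_smul_comm, mul_one, smul_mul_assoc]
        rfl
      · simp only [mul_assoc]
  · simp
  · calc v * star v * (v * star v) = v * (star v * v) * star v := by simp only [mul_assoc]
      _ = v * star v := by rw [hb, mul_one]
  · calc star (v * s * star v) * (v * s * star v)
        = v * (star s * (star v * v) * s) * star v := by
          rw [star_mul, star_mul, star_star]; simp only [mul_assoc]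
      _ = v * star v := by rw [hb, mul_one, hs, mul_one]
  · calc v * star v * (v * s * star v * star (v * s * star v))
        = v * (star v * v) * s * star v * star (v * s * star v) := by simp only [mul_assoc]
      _ = v * s * star v * star (v * s * star v) := by rw [hb, mul_one]
  · intro h
    apply hs'
    have e1 : v * s * star v * star (v * s * star v) = v * (s * star s) * star v := by
      calc v * s * star v * star (v * s * star v)
          = v * s * (star v * v) * star s * star v := by
            rw [star_mul, star_mul, star_star]; simp only [mul_assoc]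
        _ = v * (s * star s) * star v := by rw [hb, mul_one]; simp only [mul_assoc]
    rw [e1] at h
    calc s * star s = (star v * v) * (s * star s) * (star v * v) := by rw [hb, one_mul, mul_one]
      _ = star v * (v * (s * star s) * star v) * v := by simp only [mul_assoc]
      _ = (star v * v) * (star v * v) := by rw [h]; simp only [mul_assoc]
      _ = 1 := by rw [hb, one_mul]

/-- Cancellation property implies simplicity. -/
lemma simple_of {A : Type*} [CStarAlgebra A] [Nontrivial A]
    (hK : ∀ y : A, y ≠ 0 → ∃ b : A, star (y * b) * (y * b) = 1) : IsSimpleRing A := by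
  refine ⟨⟨fun I => ?_⟩⟩
  by_cases hI : ∃ y ∈ I, y ≠ 0
  · right
    obtain ⟨y, hy, hy0⟩ := hI
    obtain ⟨b, hb⟩ := hK y hy0
    have h1 : (1 : A) ∈ I := by
      rw [← hb]
      exact I.mul_mem_left _ _ (I.mul_mem_right _ _ hy)
    rw [eq_top_iff]
    intro z _
    have := I.mul_mem_left z 1 h1
    simpa using this
  · left
    push Not at hI
    rw [eq_bot_iff]
    intro z hz
    simpa using hI z hz

end

end Pool.Agent.Lib.MP_ced2c5_an
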