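import Mathlib

/-! Isometries of `l2(X)` induced by injective self-maps of `X`. -/

namespace Pool.Agent.Lib.MP_ced2c5_an

open scoped ENNReal Classical
open ContinuousLinearMap

noncomputable section

/-- The Hilbert space `l2(X)`. -/
abbrev Hs (X : Type) := lp (fun _ : X => ℂ) 2

variable {X : Type}

/-- The basis vector. -/
def ee (x : X) : Hs X := lp.single 2 x (1 : ℂ)

lemma ee_apply (x y : X) : (ee x : X → ℂ) y = if y = x then 1 else 0 := by
  classical
  unfold ee
  by_cases h : y = x
  · subst h; simp
  · simp [h]

lemma inner_ee_left (x : X) (v : Hs X) : inner ℂ (ee x) v = (v : X → ℂ) x := by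
  classical
  unfold ee
  rw [lp.inner_single_left]
  simp

lemma inner_ee_ee (x y : X) : inner ℂ (ee x) (ee y) = if x = y then 1 else 0 := by
  rw [inner_ee_left, ee_apply]

lemma norm_ee (x : X) : ‖ee x‖ = 1 := by
  classical
  unfold ee
  rw [lp.norm_single (by norm_num)]
  simp

lemma vec_ext {v w : Hs X} (h : ∀ x, inner ℂ (ee x) v = inner ℂ (ee x) w) : v = w := by
  apply lp.ext
  funext x
  have := h x
  rwa [inner_ee_left, inner_ee_left] at this

/-- Operators agreeing on all basis vectors are equal. -/
lemma op_ext {A B : Hs X →L[ℂ] Hs X} (h : ∀ x, A (ee x) = B (ee x)) : A = B := by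
  have h2 : ∀ v, adjoint A v = adjoint B v := by
    intro v
    apply vec_ext
    intro x
    rw [adjoint_inner_right, adjoint_inner_right, h]
  have h3 : adjoint A = adjoint B := ContinuousLinearMap.ext h2
  exact adjoint.injective h3

lemma orthonormal_ee_comp {f : X → X} (hf : Function.Injective f) :
    Orthonormal ℂ (fun x => ee (f x)) := by
  classical
  rw [orthonormal_iff_ite]
  intro i j
  rw [inner_ee_ee]
  by_cases h : i = j
  · simp [h]
  · simp [h, hf.ne h]

/-- The isometry `e_x ↦ e_{f x}`. -/
def So {f : X → X} (hf : Function.Injective f) : Hs X →L[ℂ] Hs X :=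
  ((orthonormal_ee_comp hf).orthogonalFamily.linearIsometry).toContinuousLinearMap

lemma So_ee {f : X → X} (hf : Function.Injective f) (x : X) : So hf (ee x) = ee (f x) := by
  classical
  unfold So
  simp only [LinearIsometry.coe_toContinuousLinearMap]
  conv_lhs => rw [ee]
  rw [OrthogonalFamily.linearIsometry_apply_single]
  simp

lemma star_So_mul_So {f : X → X} (hf : Function.Injective f) : star (So hf) * So hf = 1 := by
  apply op_ext
  intro x
  apply vec_ext
  intro y
  rw [mul_apply_eq_comp, star_eq_adjoint, adjoint_inner_right, So_ee, So_ee,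
    inner_ee_ee, one_apply_eq_self, inner_ee_ee]
  simp [hf.eq_iff]

/-- The adjoint on basis vectors in the range. -/
lemma star_So_ee {f : X → X} (hf : Function.Injective f) (x : X) :
    star (So hf) (ee (f x)) = ee x := by
  apply vec_ext
  intro y
  rw [star_eq_adjoint, adjoint_inner_right, So_ee, inner_ee_ee, inner_ee_ee]
  simp [hf.eq_iff]

/-- The adjoint on basis vectors off the range. -/
lemma star_So_ee_of_not {f : X → X} (hf : Function.Injective f) (y : X) (hy : ∀ x, f x ≠ y) :
    star (So hf) (ee y) = 0 := by
  apply vec_ext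
  intro z
  rw [star_eq_adjoint, adjoint_inner_right, So_ee, inner_ee_ee]
  simp [hy z]

lemma star_So_mul_So_of_disj {f g : X → X} (hf : Function.Injective f) (hg : Function.Injective g)
    (h : ∀ x y, f x ≠ g y) : star (So hf) * So hg = 0 := by
  apply op_ext
  intro x
  rw [mul_apply_eq_comp, So_ee, star_So_ee_of_not hf _ (fun z => h z x)]
  simp

lemma So_comp {f g : X → X} (hf : Function.Injective f) (hg : Function.Injective g) :
    So hf * So hg = So (hf.comp hg) := by
  apply op_ext
  intro x
  rw [mul_apply_eq_comp, So_ee, So_ee, So_ee]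
  rfl

lemma So_id : So (Function.injective_id (α := X)) = 1 := by
  apply op_ext
  intro x
  rw [So_ee]
  simp

end

end Pool.Agent.Lib.MP_ced2c5_an
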