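import Mathlib
import Pool.Agent.Lib.MP_ced2c5_an.CSpan
import Pool.Agent.Lib.MP_ced2c5_an.Ops

/-! Aperiodic sequences in five letters and the compression property. -/

namespace Pool.Agent.Lib.MP_ced2c5_an

open scoped ENNReal Classical
open ContinuousLinearMap Filter

noncomputable section

/-- Sequences in five letters no two of whose tails (from different places) agree. -/
def Xs : Type := {w : ℕ → Fin 5 // ∀ m n, (∀ k, w (m + k) = w (n + k)) → m = n}

/-- Prepend a letter. -/
def cs (i : Fin 5) (x : Xs) : Xs :=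
  ⟨fun n => Nat.casesOn n i x.1, by
    intro m n h
    apply x.2 m n
    intro k
    have := h (k + 1)
    simpa [← add_assoc] using this⟩

@[simp] lemma cs_zero (i : Fin 5) (x : Xs) : (cs i x).1 0 = i := rfl
@[simp] lemma cs_succ (i : Fin 5) (x : Xs) (n : ℕ) : (cs i x).1 (n + 1) = x.1 n := rfl

/-- Drop the first letter. -/
def tl (x : Xs) : Xs :=
  ⟨fun n => x.1 (n + 1), by
    intro m n h
    have := x.2 (m + 1) (n + 1) (by
      intro k
      have := h k
      simpa [add_right_comm] using this)
    omega⟩

lemma cs_tl (x : Xs) : cs (x.1 0) (tl x) = x := by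
  apply Subtype.ext
  funext n
  cases n with
  | zero => rfl
  | succ n => rfl

lemma tl_cs (i : Fin 5) (x : Xs) : tl (cs i x) = x := rfl

lemma cs_inj {i j : Fin 5} {x y : Xs} (h : cs i x = cs j y) : i = j ∧ x = y := by
  constructor
  · have := congrArg (fun z : Xs => z.1 0) h
    simpa using this
  · have := congrArg tl h
    simpa [tl_cs] using this

lemma cs_injective (i : Fin 5) : Function.Injective (cs i) := fun _ _ h => (cs_inj h).2

/-- Prepend a word. -/
def ap (l : List (Fin 5)) (x : Xs) : Xs := l.foldr cs x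

@[simp] lemma ap_nil (x : Xs) : ap [] x = x := rfl
lemma ap_cons (i : Fin 5) (l : List (Fin 5)) (x : Xs) : ap (i :: l) x = cs i (ap l x) := rfl

lemma ap_injective (l : List (Fin 5)) : Function.Injective (ap l) := by
  induction l with
  | nil => intro x y h; simpa using h
  | cons i l ih => intro x y h; exact ih ((cs_inj h).2)

lemma ap_len_add (l : List (Fin 5)) (x : Xs) (k : ℕ) : (ap l x).1 (l.length + k) = x.1 k := by
  induction l with
  | nil => simp
  | cons i l ih =>
    rw [ap_cons, List.length_cons, show l.length + 1 + k = (l.length + k) + 1 by ring, cs_succ, ih]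

/-- The first `n` letters. -/
def pre : ℕ → Xs → List (Fin 5)
  | 0, _ => []
  | n + 1, x => x.1 0 :: pre n (tl x)

/-- Drop `n` letters. -/
def dr : ℕ → Xs → Xs
  | 0, x => x
  | n + 1, x => dr n (tl x)

lemma ap_pre_dr (n : ℕ) (x : Xs) : ap (pre n x) (dr n x) = x := by
  induction n generalizing x with
  | zero => rfl
  | succ n ih =>
    simp only [pre, dr, ap_cons]
    rw [ih, cs_tl]

@[simp] lemma length_pre (n : ℕ) (x : Xs) : (pre n x).length = n := by
  induction n generalizing x with
  | zero => rfl
  | succ n ih => simp [pre, ih]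

lemma ap_pre_apply (n : ℕ) (ω x : Xs) (k : ℕ) (hk : k < n) : (ap (pre n ω) x).1 k = ω.1 k := by
  induction n generalizing ω k with
  | zero => omega
  | succ n ih =>
    simp only [pre, ap_cons]
    cases k with
    | zero => rfl
    | succ k => rw [cs_succ, ih (tl ω) k (by omega)]; rfl

lemma eq_pre_of_agree (l : List (Fin 5)) (ω z : Xs)
    (h : ∀ k < l.length, (ap l z).1 k = ω.1 k) : l = pre l.length ω := by
  induction l generalizing ω with
  | nil => rfl
  | cons i l ih =>
    simp only [List.length_cons, pre]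
    have h0 := h 0 (by simp)
    rw [ap_cons, cs_zero] at h0
    have h1 := ih (tl ω) (by
      intro k hk
      have := h (k + 1) (by simp; omega)
      rw [ap_cons, cs_succ] at this
      exact this)
    rw [h0, ← h1]

lemma pre_add (m n : ℕ) (ω : Xs) : pre (m + n) ω = pre m ω ++ pre n (dr m ω) := by
  induction m generalizing ω with
  | zero => simp [pre, dr]
  | succ m ih =>
    rw [show m + 1 + n = (m + n) + 1 by ring]
    simp only [pre, dr, ih, List.cons_append]

lemma ap_append (l m : List (Fin 5)) (x : Xs) : ap (l ++ m) x = ap l (ap m x) := by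
  simp [ap, List.foldr_append]

/-- The five isometries. -/
def ss (i : Fin 5) : Hs Xs →L[ℂ] Hs Xs := So (cs_injective i)

lemma ss_rel : Rel ss := by
  intro i j
  by_cases h : i = j
  · subst h
    simp only [if_true]
    exact star_So_mul_So _
  · simp only [h, if_false]
    apply star_So_mul_So_of_disj
    intro x y hxy
    exact h (cs_inj hxy).1

lemma wd_ss (l : List (Fin 5)) : wd ss l = So (ap_injective l) := by
  induction l with
  | nil =>
    rw [wd_nil]
    apply op_ext
    intro x
    rw [So_ee]
    simp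
  | cons i l ih =>
    rw [wd_cons, ih, ss, So_comp]
    apply op_ext
    intro x
    rw [So_ee, So_ee]
    rfl

lemma wd_ss_ee (l : List (Fin 5)) (x : Xs) : wd ss l (ee x) = ee (ap l x) := by
  rw [wd_ss, So_ee]

lemma star_wd_ss_ee (l : List (Fin 5)) (x : Xs) : star (wd ss l) (ee (ap l x)) = ee x := by
  rw [wd_ss, star_So_ee]

lemma star_wd_ss_ee_of_not (l : List (Fin 5)) (y : Xs) (h : ∀ x, ap l x ≠ y) :
    star (wd ss l) (ee y) = 0 := by
  rw [wd_ss, star_So_ee_of_not _ _ h]

/-- Compression of a word operator by long prefixes of `ω`. -/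
lemma compress_word (ω : Xs) (a b : List (Fin 5)) :
    ∃ c : ℂ, ∀ᶠ n in atTop,
      star (wd ss (pre n ω)) * (wd ss a * star (wd ss b)) * wd ss (pre n ω) = c • 1 := by
  by_cases hcase : a = b ∧ a = pre a.length ω
  · obtain ⟨rfl, ha⟩ := hcase
    refine ⟨1, ?_⟩
    filter_upwards [eventually_ge_atTop a.length] with n hn
    obtain ⟨m, rfl⟩ := Nat.exists_eq_add_of_le hn
    rw [pre_add, ← ha, wd_append]
    rw [one_smul]
    have h1 : star (wd ss a) * wd ss a = 1 := star_wd_mul_wd_self ss_rel a
    have h2 := star_wd_mul_wd_self ss_rel (pre m (dr a.length ω))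
    calc star (wd ss a * wd ss (pre m (dr a.length ω))) * (wd ss a * star (wd ss a)) *
          (wd ss a * wd ss (pre m (dr a.length ω)))
        = star (wd ss (pre m (dr a.length ω))) * ((star (wd ss a) * wd ss a) *
            (star (wd ss a) * wd ss a)) * wd ss (pre m (dr a.length ω)) := by
          rw [star_mul]; simp only [mul_assoc]
      _ = 1 := by rw [h1, one_mul, mul_one, h2]
  · refine ⟨0, ?_⟩
    by_contra hne
    have hfreq : ∃ᶠ n in atTop, ∃ x y z : Xs, ap (pre n ω) x = ap b z ∧ ap (pre n ω) y = ap a z := by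
      rw [Filter.not_eventually] at hne
      refine hne.mono ?_
      intro n hn
      by_contra hno
      push Not at hno
      apply hn
      rw [zero_smul]
      apply op_ext
      intro x
      simp only [mul_apply_eq_comp, ContinuousLinearMap.zero_apply]
      rw [wd_ss_ee]
      by_cases hz : ∃ z, ap b z = ap (pre n ω) x
      · obtain ⟨z, hz⟩ := hz
        rw [← hz, star_wd_ss_ee, wd_ss_ee]
        rw [star_wd_ss_ee_of_not]
        intro y hy
        exact hno x y z hz.symm hy
      · push Not at hz
        rw [star_wd_ss_ee_of_not b _ hz]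
        simp
    apply hcase
    rw [Filter.frequently_atTop] at hfreq
    have hb : b = pre b.length ω := by
      obtain ⟨n, hn, x, y, z, h1, h2⟩ := hfreq b.length
      apply eq_pre_of_agree b ω z
      intro k hk
      rw [← h1, ap_pre_apply n ω x k (by omega)]
    have ha : a = pre a.length ω := by
      obtain ⟨n, hn, x, y, z, h1, h2⟩ := hfreq a.length
      apply eq_pre_of_agree a ω z
      intro k hk
      rw [← h2, ap_pre_apply n ω y k (by omega)]
    have hlen : a.length = b.length := by
      apply ω.2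
      intro k
      obtain ⟨n, hn, x, y, z, h1, h2⟩ := hfreq (a.length + b.length + k + 1)
      have e1 := ap_len_add a z k
      have e2 := ap_len_add b z k
      rw [← h2, ap_pre_apply n ω y _ (by omega)] at e1
      rw [← h1, ap_pre_apply n ω x _ (by omega)] at e2
      rw [e1, e2]
    refine ⟨?_, ha⟩
    rw [ha, hb, hlen]

/-- Compression of any algebraic element. -/
lemma compress_span (ω : Xs) {x : Hs Xs →L[ℂ] Hs Xs} (hx : x ∈ cspan ss ss_rel) :
    ∃ c : ℂ, ∀ᶠ n in atTop, star (wd ss (pre n ω)) * x * wd ss (pre n ω) = c • 1 := by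
  rw [mem_cspan] at hx
  induction hx using Submodule.span_induction with
  | mem x hx =>
    obtain ⟨⟨a, b⟩, rfl⟩ := hx
    exact compress_word ω a b
  | zero => exact ⟨0, by simp⟩
  | add x y _ _ hx hy =>
    obtain ⟨c, hc⟩ := hx
    obtain ⟨d, hd⟩ := hy
    refine ⟨c + d, ?_⟩
    filter_upwards [hc, hd] with n h1 h2
    rw [mul_add, add_mul, h1, h2, add_smul]
  | smul r x _ hx =>
    obtain ⟨c, hc⟩ := hx
    refine ⟨r * c, ?_⟩
    filter_upwards [hc] with n h1
    rw [mul_smul_comm, smul_mul_assoc, h1, smul_smul]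

/-- The compression constant is the diagonal coefficient. -/
lemma compress_span' (ω : Xs) {x : Hs Xs →L[ℂ] Hs Xs} (hx : x ∈ cspan ss ss_rel) :
    ∃ n : ℕ, star (wd ss (pre n ω)) * x * wd ss (pre n ω) = (inner ℂ (ee ω) (x (ee ω))) • 1 := by
  obtain ⟨c, hc⟩ := compress_span ω hx
  obtain ⟨n, hn⟩ := hc.exists
  refine ⟨n, ?_⟩
  rw [hn]
  congr 1
  have h1 : inner ℂ (ee (dr n ω)) ((star (wd ss (pre n ω)) * x * wd ss (pre n ω)) (ee (dr n ω)))
      = inner ℂ (ee ω) (x (ee ω)) := by
    rw [mul_apply_eq_comp, mul_apply_eq_comp, wd_ss_ee, ap_pre_dr, star_eq_adjoint,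
      adjoint_inner_right, wd_ss_ee, ap_pre_dr]
  rw [← h1, hn]
  simp [norm_ee]

end

end Pool.Agent.Lib.MP_ced2c5_an
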