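import Mathlib
import Pool.Agent.Lib.MP_ced2c5_an.Words
import Pool.Agent.Lib.MP_ced2c5_an.General

/-! The algebra `D`: separable, simple, purely infinite. -/

namespace Pool.Agent.Lib.MP_ced2c5_an

open scoped ENNReal Classical
open ContinuousLinearMap Filter

noncomputable section

/-- The closed star algebra generated by the five isometries. -/
def Dd : StarSubalgebra ℂ (Hs Xs →L[ℂ] Hs Xs) := (cspan ss ss_rel).topologicalClosure

instance isClosed_Dd : IsClosed (Dd : Set (Hs Xs →L[ℂ] Hs Xs)) :=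
  StarSubalgebra.isClosed_topologicalClosure _

instance : CStarAlgebra Dd := StarSubalgebra.cstarAlgebra Dd

lemma cspan_le_Dd : cspan ss ss_rel ≤ Dd := StarSubalgebra.le_topologicalClosure _

lemma wd_mem_cspan (l : List (Fin 5)) : wd ss l ∈ cspan ss ss_rel := by
  rw [mem_cspan]
  apply Submodule.subset_span
  exact ⟨(l, []), by simp [ww]⟩

lemma wd_mem (l : List (Fin 5)) : wd ss l ∈ Dd := cspan_le_Dd (wd_mem_cspan l)

lemma ss_mem (i : Fin 5) : ss i ∈ Dd := cspan_le_Dd (gen_mem_cspan ss_rel i)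

instance nonempty_Xs : Nonempty Xs := by
  refine ⟨⟨fun n => if IsSquare n then 1 else 0, ?_⟩⟩
  have key : ∀ m d : ℕ, 0 < d → ¬ (∀ k, ((if IsSquare (m + k) then 1 else 0 : Fin 5)) =
      (if IsSquare (m + d + k) then 1 else 0)) := by
    intro m d hd h
    have h1 := h ((m + d + 1) * (m + d + 1) - m)
    have h2 : m ≤ (m + d + 1) * (m + d + 1) := by nlinarith
    rw [show m + ((m + d + 1) * (m + d + 1) - m) = (m + d + 1) * (m + d + 1) by omega,
      show m + d + ((m + d + 1) * (m + d + 1) - m) = (m + d + 1) * (m + d + 1) + d by omega] at h1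
    rw [if_pos ⟨m + d + 1, rfl⟩] at h1
    by_cases hs : IsSquare ((m + d + 1) * (m + d + 1) + d)
    · obtain ⟨r, hr⟩ := hs
      have : m + d + 1 < r := by
        by_contra hc
        push Not at hc
        nlinarith
      nlinarith
    · rw [if_neg hs] at h1
      exact absurd h1 (by decide)
  intro m n h
  rcases lt_trichotomy m n with hmn | hmn | hmn
  · exfalso
    obtain ⟨d, rfl⟩ := Nat.exists_eq_add_of_lt hmn
    apply key m (d + 1) (by omega)
    intro k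
    have := h k
    simpa [add_assoc] using this
  · exact hmn
  · exfalso
    obtain ⟨d, rfl⟩ := Nat.exists_eq_add_of_lt hmn
    apply key n (d + 1) (by omega)
    intro k
    have := (h k).symm
    simpa [add_assoc] using this

instance : Nontrivial Dd := by
  refine ⟨⟨0, 1, ?_⟩⟩
  intro h
  have h1 : (0 : Hs Xs →L[ℂ] Hs Xs) = 1 := congrArg Subtype.val h
  obtain ⟨x⟩ := nonempty_Xs
  have h2 : (0 : Hs Xs) = ee x := by
    have := congrArg (fun T : Hs Xs →L[ℂ] Hs Xs => T (ee x)) h1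
    simpa using this
  have h3 := norm_ee x
  rw [← h2] at h3
  simp at h3

instance separable_Dd : TopologicalSpace.SeparableSpace Dd := by
  have h1 : TopologicalSpace.IsSeparable (Set.range (ww ss)) :=
    (Set.countable_range (ww ss)).isSeparable
  have h2 : TopologicalSpace.IsSeparable ((Submodule.span ℂ (Set.range (ww ss)) :
      Submodule ℂ (Hs Xs →L[ℂ] Hs Xs)) : Set (Hs Xs →L[ℂ] Hs Xs)) := h1.span
  have h3 := h2.closure
  have h4 : ((Dd : StarSubalgebra ℂ _) : Set (Hs Xs →L[ℂ] Hs Xs)) =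
      closure ((Submodule.span ℂ (Set.range (ww ss)) :
      Submodule ℂ (Hs Xs →L[ℂ] Hs Xs)) : Set (Hs Xs →L[ℂ] Hs Xs)) := by
    rw [Dd, StarSubalgebra.topologicalClosure_coe]
    rfl
  rw [← h4] at h3
  exact h3.separableSpace

/-- Norm estimate for compressions, in an arbitrary Hilbert space. -/
lemma near_aux {H : Type*} [NormedAddCommGroup H] [InnerProductSpace ℂ H] [CompleteSpace H]
    (Y x S : H →L[ℂ] H) (e : H) (he : ‖e‖ = 1) (c : ℝ) (hc : c = ‖Y e‖ ^ 2) (hc0 : 0 < c)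
    (hd : ‖star Y * Y - x‖ < c / 4) (hS : star S * S = 1)
    (hn : star S * x * S = (inner ℂ e (x e)) • (1 : H →L[ℂ] H)) :
    ‖star (Y * S) * (Y * S) - (c : ℂ) • (1 : H →L[ℂ] H)‖ < c := by
  have hin : inner ℂ e ((star Y * Y) e) = (c : ℂ) := by
    rw [mul_apply_eq_comp, star_eq_adjoint, adjoint_inner_right, inner_self_eq_norm_sq_to_K, hc]
    simp
  have h3 : ‖(1 : H →L[ℂ] H)‖ ≤ 1 := ContinuousLinearMap.norm_id_le
  have hSn : ‖S‖ ≤ 1 := by
    have h2 : ‖star S * S‖ = ‖S‖ * ‖S‖ := CStarRing.norm_star_mul_self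
    rw [hS] at h2
    nlinarith [norm_nonneg S]
  have hd2 : ‖(inner ℂ e (x e) : ℂ) - c‖ < c / 4 := by
    have e1 : (inner ℂ e (x e) : ℂ) - c = inner ℂ e ((x - star Y * Y) e) := by
      rw [← hin, ContinuousLinearMap.sub_apply, inner_sub_right]
    rw [e1]
    calc ‖inner ℂ e ((x - star Y * Y) e)‖ ≤ ‖e‖ * ‖(x - star Y * Y) e‖ :=
          norm_inner_le_norm _ _
      _ ≤ ‖e‖ * (‖x - star Y * Y‖ * ‖e‖) := by
          gcongr
          exact ContinuousLinearMap.le_opNorm _ _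
      _ = ‖star Y * Y - x‖ := by rw [he, norm_sub_rev]; ring
      _ < c / 4 := hd
  have e0 : star (Y * S) * (Y * S) - (c : ℂ) • (1 : H →L[ℂ] H) =
      star S * (star Y * Y - x) * S + ((inner ℂ e (x e) : ℂ) - c) • (1 : H →L[ℂ] H) := by
    rw [mul_sub, sub_mul, hn, sub_smul, star_mul]
    simp only [mul_assoc]
    abel
  rw [e0]
  have b1 : ‖star S * (star Y * Y - x) * S‖ ≤ ‖star Y * Y - x‖ := by
    calc ‖star S * (star Y * Y - x) * S‖ ≤ ‖star S‖ * ‖star Y * Y - x‖ * ‖S‖ := by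
          refine (norm_mul_le _ _).trans ?_
          gcongr
          exact norm_mul_le _ _
      _ ≤ 1 * ‖star Y * Y - x‖ * 1 := by
          have : ‖star S‖ ≤ 1 := by rw [norm_star]; exact hSn
          gcongr
      _ = ‖star Y * Y - x‖ := by ring
  have b2 : ‖((inner ℂ e (x e) : ℂ) - c) • (1 : H →L[ℂ] H)‖ ≤ ‖(inner ℂ e (x e) : ℂ) - c‖ := by
    rw [norm_smul]
    calc ‖(inner ℂ e (x e) : ℂ) - c‖ * ‖(1 : H →L[ℂ] H)‖
        ≤ ‖(inner ℂ e (x e) : ℂ) - c‖ * 1 := by gcongr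
      _ = _ := by ring
  have b3 := norm_add_le (star S * (star Y * Y - x) * S)
    (((inner ℂ e (x e) : ℂ) - c) • (1 : H →L[ℂ] H))
  linarith

lemma near_Dd (Y : Hs Xs →L[ℂ] Hs Xs) (hYD : Y ∈ Dd) (ω : Xs) (hω : Y (ee ω) ≠ 0) :
    ∃ γ : List (Fin 5), ‖star (Y * wd ss γ) * (Y * wd ss γ) -
      ((‖Y (ee ω)‖ ^ 2 : ℝ) : ℂ) • (1 : Hs Xs →L[ℂ] Hs Xs)‖ < ‖Y (ee ω)‖ ^ 2 := by
  have hc0 : 0 < ‖Y (ee ω)‖ ^ 2 := by
    have : 0 < ‖Y (ee ω)‖ := norm_pos_iff.2 hω
    positivity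
  have hmem : star Y * Y ∈ Dd := mul_mem (star_mem hYD) hYD
  have hcl : star Y * Y ∈ closure ((cspan ss ss_rel : StarSubalgebra ℂ _) :
      Set (Hs Xs →L[ℂ] Hs Xs)) := by
    have := hmem
    rwa [← SetLike.mem_coe, Dd, StarSubalgebra.topologicalClosure_coe] at this
  rw [Metric.mem_closure_iff] at hcl
  obtain ⟨x, hx, hdist⟩ := hcl (‖Y (ee ω)‖ ^ 2 / 4) (by positivity)
  obtain ⟨n, hn⟩ := compress_span' ω hx
  have hd1 : ‖star Y * Y - x‖ < ‖Y (ee ω)‖ ^ 2 / 4 := by rwa [dist_eq_norm] at hdist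
  exact ⟨pre n ω, near_aux Y x _ (ee ω) (norm_ee ω) _ rfl hc0 hd1
    (star_wd_mul_wd_self ss_rel _) hn⟩

/-- The cancellation property of `D`. -/
lemma cancel_Dd (y : Dd) (hy : y ≠ 0) : ∃ b : Dd, star (y * b) * (y * b) = 1 := by
  have h1 : ∃ ω : Xs, (y : Hs Xs →L[ℂ] Hs Xs) (ee ω) ≠ 0 := by
    by_contra hno
    push Not at hno
    apply hy
    apply Subtype.ext
    apply op_ext
    intro x
    rw [hno x]
    simp
  obtain ⟨ω, hω⟩ := h1
  obtain ⟨γ, hγ⟩ := near_Dd y.1 y.2 ω hω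
  have hc0 : 0 < ‖(y : Hs Xs →L[ℂ] Hs Xs) (ee ω)‖ ^ 2 := by
    have : 0 < ‖(y : Hs Xs →L[ℂ] Hs Xs) (ee ω)‖ := norm_pos_iff.2 hω
    positivity
  obtain ⟨w, hw⟩ := exists_isometry_of_near (y * (⟨wd ss γ, wd_mem γ⟩ : Dd)) _ hc0 hγ
  exact ⟨(⟨wd ss γ, wd_mem γ⟩ : Dd) * w, by rw [← mul_assoc]; exact hw⟩

lemma simple_Dd : IsSimpleRing Dd := simple_of cancel_Dd

lemma purInf_Dd : PurInf Dd := by
  apply purInf_of cancel_Dd (⟨ss 0, ss_mem 0⟩ : Dd)
  · apply Subtype.ext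
    have := ss_rel 0 0
    simpa using this
  · intro h
    have h1 : ss 0 * star (ss 0) = 1 := congrArg Subtype.val h
    obtain ⟨x⟩ := nonempty_Xs
    have h2 : (ss 0 * star (ss 0)) (ee (cs 1 x)) = ee (cs 1 x) := by rw [h1]; rfl
    rw [mul_apply_eq_comp] at h2
    have h3 : star (ss 0) (ee (cs 1 x)) = 0 := by
      apply star_So_ee_of_not
      intro y hy
      exact absurd (cs_inj hy).1 (by decide)
    rw [h3] at h2
    have h4 := norm_ee (cs 1 x)
    rw [← h2] at h4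
    simp at h4

end

end Pool.Agent.Lib.MP_ced2c5_an
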