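import Mathlib
import Pool.Agent.Lib.MP_ced2c5_an.Univ

/-! Existence of the universal C*-algebra of a sequence of isometries with orthogonal ranges. -/

namespace Pool.Agent.Lib.MP_ced2c5_an

open scoped ENNReal Classical

noncomputable section

/-- A C*-algebra (possibly zero ring excluded) with a distinguished family. -/
structure Fam : Type 1 where
  B : Type
  cs : CStarAlgebra B
  nt : Nontrivial B
  t : ℕ → B
  rel : @Rel ℕ _ B _ _ t

attribute [instance] Fam.cs Fam.nt

/-- The norm function of a family. -/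
def Fam.N (F : Fam) (c : (List ℕ × List ℕ) →₀ ℂ) : ℝ := ‖ev F.t c‖

/-- The small index set: all norm functions. -/
def Rr : Type := {N : ((List ℕ × List ℕ) →₀ ℂ) → ℝ // ∃ F : Fam, F.N = N}

/-- A chosen family for each norm function. -/
def ch (r : Rr) : Fam := r.2.choose

lemma ch_spec (r : Rr) : (ch r).N = r.1 := r.2.choose_spec

/-- The big product algebra. -/
abbrev Lb : Type := lp (fun r : Rr => (ch r).B) ∞

instance : CStarAlgebra Lb where

lemma norm_t_le (F : Fam) (i : ℕ) : ‖F.t i‖ ≤ 1 := by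
  have h1 : star (F.t i) * F.t i = 1 := by
    have := F.rel i i
    rwa [if_pos rfl] at this
  have h2 : ‖star (F.t i) * F.t i‖ = ‖F.t i‖ * ‖F.t i‖ := CStarRing.norm_star_mul_self
  rw [h1, norm_one] at h2
  nlinarith [norm_nonneg (F.t i)]

/-- The universal generators in the big product. -/
def tb (i : ℕ) : Lb :=
  ⟨fun r => (ch r).t i, memℓp_infty ⟨1, by
    rintro _ ⟨r, rfl⟩
    exact norm_t_le (ch r) i⟩⟩

lemma tb_apply (i : ℕ) (r : Rr) : (tb i : ∀ r, (ch r).B) r = (ch r).t i := rfl

lemma tb_rel : Rel tb := by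
  intro i j
  apply lp.ext
  funext r
  have h := (ch r).rel i j
  by_cases hij : i = j
  · rw [if_pos hij] at h ⊢
    exact h
  · rw [if_neg hij] at h ⊢
    exact h

/-- Evaluation at an index. -/
def evr (r : Rr) : Lb →⋆ₐ[ℂ] (ch r).B where
  toFun f := f.1 r
  map_one' := rfl
  map_mul' _ _ := rfl
  map_zero' := rfl
  map_add' _ _ := rfl
  commutes' _ := rfl
  map_star' _ := rfl

/-- The universal algebra. -/
def Ou : StarSubalgebra ℂ Lb := (cspan tb tb_rel).topologicalClosure

instance isClosed_Ou : IsClosed (Ou : Set Lb) := StarSubalgebra.isClosed_topologicalClosure _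

instance : CStarAlgebra Ou := StarSubalgebra.cstarAlgebra Ou

lemma tb_mem (i : ℕ) : tb i ∈ Ou :=
  (StarSubalgebra.le_topologicalClosure _) (gen_mem_cspan tb_rel i)

/-- The universal generators. -/
def su (i : ℕ) : Ou := ⟨tb i, tb_mem i⟩

lemma su_rel : Rel su := by
  intro i j
  apply Subtype.ext
  have h := tb_rel i j
  by_cases hij : i = j
  · rw [if_pos hij] at h ⊢
    exact h
  · rw [if_neg hij] at h ⊢
    exact h

lemma coe_ev (c : (List ℕ × List ℕ) →₀ ℂ) : (ev su c : Ou).1 = ev tb c :=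
  map_ev Ou.subtype su c

lemma dense_su : closure ((cspan su su_rel : StarSubalgebra ℂ Ou) : Set Ou) = Set.univ := by
  rw [Set.eq_univ_iff_forall]
  intro x
  have hx : x.1 ∈ closure ((cspan tb tb_rel : StarSubalgebra ℂ Lb) : Set Lb) := by
    have h1 : x.1 ∈ (Ou : Set Lb) := x.2
    have h2 : (Ou : Set Lb) = closure ((cspan tb tb_rel : StarSubalgebra ℂ Lb) : Set Lb) :=
      StarSubalgebra.topologicalClosure_coe _
    rwa [h2] at h1
  rw [Metric.mem_closure_iff] at hx ⊢
  intro ε hε
  obtain ⟨b, hb, hd⟩ := hx ε hε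
  obtain ⟨c, rfl⟩ := (mem_cspan_iff_ev tb_rel b).1 hb
  refine ⟨ev su c, (mem_cspan_iff_ev su_rel _).2 ⟨c, rfl⟩, ?_⟩
  rw [← coe_ev] at hd
  exact hd

/-- The universal property. -/
lemma univ_su (B : Type) [CStarAlgebra B] (t : ℕ → B) (ht : Rel t) :
    ∃ φ : Ou →⋆ₐ[ℂ] B, ∀ i, φ (su i) = t i := by
  by_cases hB : Nontrivial B
  · let F : Fam := ⟨B, inferInstance, hB, t, ht⟩
    let r : Rr := ⟨F.N, F, rfl⟩
    apply exists_hom su t su_rel ht dense_su
    intro c
    have h1 : ‖ev t c‖ = ‖ev (ch r).t c‖ := by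
      have := congrFun (ch_spec r) c
      exact this.symm
    have h2 : ev (ch r).t c = (ev tb c).1 r := (map_ev (evr r) tb c).symm
    rw [h1, h2]
    calc ‖(ev tb c).1 r‖ ≤ ‖ev tb c‖ := lp.norm_apply_le_norm (by simp) _ _
      _ = ‖ev su c‖ := by rw [← coe_ev]; rfl
  · have hs : Subsingleton B := not_nontrivial_iff_subsingleton.1 hB
    refine ⟨{ toFun := fun _ => 0, map_one' := Subsingleton.elim _ _,
              map_mul' := fun _ _ => Subsingleton.elim _ _, map_zero' := rfl,
              map_add' := fun _ _ => Subsingleton.elim _ _,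
              commutes' := fun _ => Subsingleton.elim _ _,
              map_star' := fun _ => Subsingleton.elim _ _ }, fun i => Subsingleton.elim _ _⟩

end

end Pool.Agent.Lib.MP_ced2c5_an
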