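import Mathlib
import Pool.Agent.Lib.MP_ced2c5_an.Dalg

/-! Two families of isometries in `D` with equal moments; the centraliser obstruction. -/

namespace Pool.Agent.Lib.MP_ced2c5_an

open scoped ENNReal Classical
open ContinuousLinearMap Filter

noncomputable section

/-- The map used for the zeroth isometry. -/
def fz (π : Fin 5 → Fin 5) (x : Xs) : Xs :=
  if x.1 0 = 4 then cs 4 (cs 4 (tl x)) else cs (π (x.1 0)) (tl x)

lemma fz_four (π : Fin 5 → Fin 5) (y : Xs) : fz π (cs 4 y) = cs 4 (cs 4 y) := by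
  simp [fz, tl_cs]

lemma fz_ne (π : Fin 5 → Fin 5) (j : Fin 5) (hj : j ≠ 4) (y : Xs) :
    fz π (cs j y) = cs (π j) y := by
  simp [fz, tl_cs, hj]

/-- Conditions on the permutation. -/
structure Good (π : Fin 5 → Fin 5) : Prop where
  inv : ∀ j, π (π j) = j
  four : π 4 = 4
  fpf : ∀ j, j ≠ 4 → π j ≠ j

lemma Good.ne_four {π : Fin 5 → Fin 5} (h : Good π) {j : Fin 5} (hj : j ≠ 4) : π j ≠ 4 := by
  intro h1
  apply hj
  rw [← h.inv j, h1, h.four]

lemma Good.inj {π : Fin 5 → Fin 5} (h : Good π) : Function.Injective π := by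
  intro i j hij
  rw [← h.inv i, hij, h.inv j]

lemma fz_injective {π : Fin 5 → Fin 5} (h : Good π) : Function.Injective (fz π) := by
  intro x y hxy
  rw [← cs_tl x, ← cs_tl y] at hxy ⊢
  generalize x.1 0 = i at hxy ⊢
  generalize y.1 0 = j at hxy ⊢
  generalize tl x = x' at hxy ⊢
  generalize tl y = y' at hxy ⊢
  by_cases hi : i = 4
  · by_cases hj : j = 4
    · subst hi hj
      rw [fz_four, fz_four] at hxy
      have := (cs_inj (cs_inj hxy).2).2
      rw [this]
    · subst hi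
      rw [fz_four, fz_ne π j hj] at hxy
      exact absurd (cs_inj hxy).1.symm (h.ne_four hj)
  · by_cases hj : j = 4
    · subst hj
      rw [fz_four, fz_ne π i hi] at hxy
      exact absurd (cs_inj hxy).1 (h.ne_four hi)
    · rw [fz_ne π i hi, fz_ne π j hj] at hxy
      obtain ⟨h1, h2⟩ := cs_inj hxy
      rw [h.inj h1, h2]

/-- Auxiliary words `0^i 1`. -/
def gi : ℕ → Xs → Xs
  | 0 => cs 1
  | i + 1 => fun x => cs 0 (gi i x)

lemma gi_inj : ∀ {i j : ℕ} {x y : Xs}, gi i x = gi j y → i = j ∧ x = y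
  | 0, 0, x, y, h => ⟨rfl, (cs_inj h).2⟩
  | 0, j + 1, x, y, h => absurd (cs_inj h).1 (by decide)
  | i + 1, 0, x, y, h => absurd (cs_inj h).1 (by decide)
  | i + 1, j + 1, x, y, h => by
      obtain ⟨h1, h2⟩ := gi_inj (cs_inj h).2
      exact ⟨by rw [h1], h2⟩

/-- The family of injections. -/
def ff (π : Fin 5 → Fin 5) : ℕ → Xs → Xs
  | 0 => fz π
  | i + 1 => fun x => cs 4 (cs 0 (gi i x))

lemma ff_injective {π : Fin 5 → Fin 5} (h : Good π) (i : ℕ) : Function.Injective (ff π i) := by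
  cases i with
  | zero => exact fz_injective h
  | succ i =>
    intro x y hxy
    exact (gi_inj (cs_inj (cs_inj hxy).2).2).2

lemma ff_disj {π : Fin 5 → Fin 5} (h : Good π) (i : ℕ) (x y : Xs) : ff π 0 x ≠ ff π (i + 1) y := by
  intro hxy
  simp only [ff] at hxy
  rw [← cs_tl x] at hxy
  generalize x.1 0 = k at hxy
  by_cases hk : k = 4
  · subst hk
    rw [fz_four] at hxy
    exact absurd (cs_inj (cs_inj hxy).2).1 (by decide)
  · rw [fz_ne π k hk] at hxy
    exact h.ne_four hk (cs_inj hxy).1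

/-- The isometries as operators. -/
def To {π : Fin 5 → Fin 5} (h : Good π) (i : ℕ) : Hs Xs →L[ℂ] Hs Xs := So (ff_injective h i)

lemma To_rel {π : Fin 5 → Fin 5} (h : Good π) : Rel (To h) := by
  intro i j
  by_cases hij : i = j
  · subst hij
    simp only [if_true]
    exact star_So_mul_So _
  · simp only [hij, if_false]
    apply star_So_mul_So_of_disj
    intro x y hxy
    cases i with
    | zero =>
      cases j with
      | zero => exact hij rfl
      | succ j => exact ff_disj h j x y hxy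
    | succ i =>
      cases j with
      | zero => exact ff_disj h i y x hxy.symm
      | succ j =>
        have := (gi_inj (cs_inj (cs_inj hxy).2).2).1
        exact hij (by rw [this])

lemma star_ss_ee (i j : Fin 5) (y : Xs) :
    star (ss i) (ee (cs j y)) = if i = j then ee y else 0 := by
  by_cases h : i = j
  · subst h
    simp only [if_true]
    exact star_So_ee _ _
  · simp only [h, if_false]
    apply star_So_ee_of_not
    intro x hx
    exact h (cs_inj hx).1

lemma gi_mem : ∀ i : ℕ, ∃ T ∈ Dd, ∀ x, T (ee x) = ee (gi i x)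
  | 0 => ⟨ss 1, ss_mem 1, fun x => So_ee _ _⟩
  | i + 1 => by
      obtain ⟨T, hT, hx⟩ := gi_mem i
      refine ⟨ss 0 * T, mul_mem (ss_mem 0) hT, ?_⟩
      intro x
      rw [mul_apply_eq_comp, hx]
      exact So_ee _ _

lemma To_mem {π : Fin 5 → Fin 5} (h : Good π) (i : ℕ) : To h i ∈ Dd := by
  cases i with
  | zero =>
    have e : To h 0 = ∑ i : Fin 5, (if i = 4 then ss 4 * ss 4 else ss (π i)) * star (ss i) := by
      apply op_ext
      intro x
      rw [To, So_ee]
      simp only [ff]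
      rw [← cs_tl x]
      generalize x.1 0 = k
      generalize tl x = y
      rw [ContinuousLinearMap.sum_apply, Finset.sum_eq_single k]
      · by_cases hk : k = 4
        · subst hk
          rw [fz_four, if_pos rfl, mul_apply_eq_comp, star_ss_ee, if_pos rfl, mul_apply_eq_comp,
            ss, So_ee, So_ee]
        · rw [fz_ne π k hk, if_neg hk, mul_apply_eq_comp, star_ss_ee, if_pos rfl, ss, So_ee]
      · intro b _ hb
        rw [mul_apply_eq_comp, star_ss_ee, if_neg hb]
        simp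
      · intro hk
        exact absurd (Finset.mem_univ _) hk
    rw [e]
    apply sum_mem
    intro i _
    apply mul_mem _ (star_mem (ss_mem i))
    by_cases hi : i = 4
    · rw [if_pos hi]; exact mul_mem (ss_mem 4) (ss_mem 4)
    · rw [if_neg hi]; exact ss_mem _
  | succ i =>
    obtain ⟨T, hT, hx⟩ := gi_mem i
    have e : To h (i + 1) = ss 4 * (ss 0 * T) := by
      apply op_ext
      intro x
      rw [To, So_ee, mul_apply_eq_comp, mul_apply_eq_comp, hx, ss, ss, So_ee, So_ee]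
      rfl
    rw [e]
    exact mul_mem (ss_mem 4) (mul_mem (ss_mem 0) hT)

/-- The isometries as elements of `D`. -/
def Td {π : Fin 5 → Fin 5} (h : Good π) (i : ℕ) : Dd := ⟨To h i, To_mem h i⟩

lemma Td_rel {π : Fin 5 → Fin 5} (h : Good π) : Rel (Td h) := by
  intro i j
  apply Subtype.ext
  have := To_rel h i j
  by_cases hij : i = j
  · simp only [hij, if_true] at this ⊢
    exact this
  · simp only [hij, if_false] at this ⊢
    exact this

lemma star_To_zero_ee {π : Fin 5 → Fin 5} (h : Good π) (j : Fin 5) (hj : j ≠ 4) (z : Xs) :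
    star (To h 0) (ee (cs j z)) = ee (cs (π j) z) := by
  have e : cs j z = ff π 0 (cs (π j) z) := by
    simp only [ff]
    rw [fz_ne π _ (h.ne_four hj), h.inv]
  rw [e, To, star_So_ee]

lemma To_zero_ee {π : Fin 5 → Fin 5} (h : Good π) (j : Fin 5) (hj : j ≠ 4) (z : Xs) :
    To h 0 (ee (cs j z)) = ee (cs (π j) z) := by
  rw [To, So_ee]
  simp only [ff]
  rw [fz_ne π _ hj]

lemma star_To_succ_ee {π : Fin 5 → Fin 5} (h : Good π) (i : ℕ) (j : Fin 5) (hj : j ≠ 4) (z : Xs) :
    star (To h (i + 1)) (ee (cs j z)) = 0 := by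
  apply star_So_ee_of_not
  intro x hx
  exact hj (cs_inj hx).1.symm

lemma star_wd_To_ee {π : Fin 5 → Fin 5} (h : Good π) (z : Xs) (l : List ℕ) :
    ∀ j : Fin 5, j ≠ 4 → star (wd (To h) l) (ee (cs j z)) =
      if (∀ i ∈ l, i = 0) then ee (cs (π^[l.length] j) z) else 0 := by
  induction l with
  | nil => intro j hj; simp
  | cons i l ih =>
    intro j hj
    rw [wd_cons, star_mul, mul_apply_eq_comp]
    cases i with
    | zero =>
      rw [star_To_zero_ee h j hj, ih _ (h.ne_four hj)]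
      simp
    | succ i =>
      rw [star_To_succ_ee h i j hj]
      simp

lemma iter_eq {π : Fin 5 → Fin 5} (h : Good π) (n : ℕ) (j : Fin 5) :
    π^[n] j = if Even n then j else π j := by
  induction n with
  | zero => simp
  | succ n ih =>
    rw [Function.iterate_succ_apply', ih]
    by_cases hn : Even n
    · simp [hn, Nat.even_add_one]
    · simp [hn, Nat.even_add_one, h.inv]

/-- The common value of the moments. -/
def Mo (p : List ℕ × List ℕ) : ℂ :=
  if (∀ i ∈ p.1, i = 0) ∧ (∀ i ∈ p.2, i = 0) ∧ (Even p.1.length ↔ Even p.2.length) then 1 else 0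

lemma moment {π : Fin 5 → Fin 5} (h : Good π) (z : Xs) (p : List ℕ × List ℕ) (j : Fin 5)
    (hj : j ≠ 4) : inner ℂ (ee (cs j z)) (ww (To h) p (ee (cs j z))) = Mo p := by
  obtain ⟨a, b⟩ := p
  have e : inner ℂ (ee (cs j z)) (ww (To h) (a, b) (ee (cs j z))) =
      inner ℂ (star (wd (To h) a) (ee (cs j z))) (star (wd (To h) b) (ee (cs j z))) := by
    rw [ww, mul_apply_eq_comp]
    simp only [star_eq_adjoint]
    rw [adjoint_inner_left]
  rw [e, star_wd_To_ee h z a j hj, star_wd_To_ee h z b j hj]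
  unfold Mo
  simp only
  by_cases ha : ∀ i ∈ a, i = 0
  · by_cases hb : ∀ i ∈ b, i = 0
    · rw [if_pos ha, if_pos hb, inner_ee_ee, iter_eq h, iter_eq h]
      have hpj := h.fpf j hj
      by_cases h1 : Even a.length <;> by_cases h2 : Even b.length
      · simp only [h1, h2, if_true]
        rw [if_pos ⟨ha, hb, trivial⟩]
      · simp only [h1, h2, if_true, if_false]
        rw [if_neg, if_neg]
        · rintro ⟨_, _, h3⟩
          exact h3.1 trivial
        · intro h3
          exact hpj (cs_inj h3).1.symm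
      · simp only [h1, h2, if_true, if_false]
        rw [if_neg, if_neg]
        · rintro ⟨_, _, h3⟩
          exact h3.2 trivial
        · intro h3
          exact hpj (cs_inj h3).1
      · simp only [h1, h2, if_true, if_false]
        rw [if_pos ⟨ha, hb, trivial⟩]
    · rw [if_neg hb, inner_zero_right, if_neg]
      rintro ⟨_, h3, _⟩
      exact hb h3
  · rw [if_neg ha, inner_zero_left, if_neg]
    rintro ⟨h3, _, _⟩
    exact ha h3

/-- The state on all bounded operators. -/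
def muB (z : Xs) (T : Hs Xs →L[ℂ] Hs Xs) : ℂ :=
  (1 / 2 : ℂ) * (inner ℂ (ee (cs 0 z)) (T (ee (cs 0 z))) + inner ℂ (ee (cs 1 z)) (T (ee (cs 1 z))))

lemma norm_inner_le (x y : Xs) (T : Hs Xs →L[ℂ] Hs Xs) :
    ‖inner ℂ (ee x) (T (ee y))‖ ≤ ‖T‖ := by
  calc ‖inner ℂ (ee x) (T (ee y))‖ ≤ ‖ee x‖ * ‖T (ee y)‖ := norm_inner_le_norm _ _
    _ ≤ ‖ee x‖ * (‖T‖ * ‖ee y‖) := by
        gcongr
        exact ContinuousLinearMap.le_opNorm _ _
    _ = ‖T‖ := by rw [norm_ee, norm_ee]; ring

/-- The state as a continuous linear functional on `D`. -/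
def mu (z : Xs) : Dd →L[ℂ] ℂ :=
  LinearMap.mkContinuous
    { toFun := fun T => muB z T.1
      map_add' := by
        intro S T
        have : (S + T : Dd).1 = S.1 + T.1 := rfl
        simp only [this, muB, ContinuousLinearMap.add_apply, inner_add_right]
        ring
      map_smul' := by
        intro c T
        have : (c • T : Dd).1 = c • T.1 := rfl
        simp only [this, muB, ContinuousLinearMap.smul_apply, inner_smul_right, RingHom.id_apply,
          smul_eq_mul]
        ring } 1 (by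
    intro T
    show ‖muB z T.1‖ ≤ 1 * ‖T.1‖
    unfold muB
    rw [norm_mul]
    have h1 := norm_inner_le (cs 0 z) (cs 0 z) T.1
    have h2 := norm_inner_le (cs 1 z) (cs 1 z) T.1
    have h3 := norm_add_le (inner ℂ (ee (cs 0 z)) (T.1 (ee (cs 0 z))))
      (inner ℂ (ee (cs 1 z)) (T.1 (ee (cs 1 z))))
    have h4 : ‖(1 / 2 : ℂ)‖ = 1 / 2 := by norm_num
    rw [h4]
    linarith)

lemma mu_apply (z : Xs) (T : Dd) : mu z T = muB z T.1 := rfl

/-- A state: a positive linear functional of norm one. -/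
def IsSt {A : Type*} [CStarAlgebra A] (μ : A →L[ℂ] ℂ) : Prop :=
  (∀ x, 0 ≤ (μ (star x * x)).re ∧ (μ (star x * x)).im = 0) ∧ ‖μ‖ = 1

lemma mu_state (z : Xs) : IsSt (mu z) := by
  constructor
  · intro x
    rw [mu_apply]
    have e : (star x * x : Dd).1 = star x.1 * x.1 := rfl
    have key : ∀ y : Xs, inner ℂ (ee y) ((star x.1 * x.1) (ee y)) = ((‖x.1 (ee y)‖ ^ 2 : ℝ) : ℂ) := by
      intro y
      rw [mul_apply_eq_comp, star_eq_adjoint, adjoint_inner_right, inner_self_eq_norm_sq_to_K]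
      simp
    rw [e, muB, key, key, ← Complex.ofReal_add]
    have : (1 / 2 : ℂ) = ((1 / 2 : ℝ) : ℂ) := by norm_num
    rw [this, ← Complex.ofReal_mul]
    constructor
    · rw [Complex.ofReal_re]; positivity
    · exact Complex.ofReal_im _
  · apply le_antisymm
    · exact LinearMap.mkContinuous_norm_le _ zero_le_one _
    · have h1 : mu z 1 = 1 := by
        rw [mu_apply, muB]
        have : ((1 : Dd) : Hs Xs →L[ℂ] Hs Xs) = 1 := rfl
        rw [this, one_apply_eq_self, one_apply_eq_self, inner_ee_ee, inner_ee_ee]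
        norm_num
      have h2 := (mu z).le_opNorm 1
      rw [h1] at h2
      have h3 : ‖(1 : Dd)‖ ≤ 1 := ContinuousLinearMap.norm_id_le
      have h4 : ‖(1 : ℂ)‖ = 1 := norm_one
      rw [h4] at h2
      calc (1 : ℝ) ≤ ‖mu z‖ * ‖(1 : Dd)‖ := h2
        _ ≤ ‖mu z‖ * 1 := by gcongr
        _ = ‖mu z‖ := mul_one _

lemma wd_Td {π : Fin 5 → Fin 5} (h : Good π) (l : List ℕ) : (wd (Td h) l : Dd).1 = wd (To h) l := by
  induction l with
  | nil => rw [wd_nil, wd_nil]; rfl
  | cons i l ih =>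
    rw [wd_cons, wd_cons, ← ih]
    rfl

lemma mu_moment {π : Fin 5 → Fin 5} (h : Good π) (z : Xs) (p : List ℕ × List ℕ) :
    mu z (ww (Td h) p) = Mo p := by
  have e : (ww (Td h) p : Dd).1 = ww (To h) p := by
    unfold ww
    rw [← wd_Td, ← wd_Td]
    rfl
  rw [mu_apply, e, muB, moment h z p 0 (by decide), moment h z p 1 (by decide)]
  ring

/-- First permutation. -/
def pi1 : Fin 5 → Fin 5 := ![1, 0, 3, 2, 4]

/-- Second permutation. -/
def pi2 : Fin 5 → Fin 5 := ![2, 3, 0, 1, 4]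

lemma good1 : Good pi1 := ⟨by decide, by decide, by decide⟩
lemma good2 : Good pi2 := ⟨by decide, by decide, by decide⟩

lemma central (z : Xs) (x : Dd) : mu z (Td good1 0 * x) = mu z (x * Td good1 0) := by
  rw [mu_apply, mu_apply]
  have e1 : (Td good1 0 * x : Dd).1 = To good1 0 * x.1 := rfl
  have e2 : (x * Td good1 0 : Dd).1 = x.1 * To good1 0 := rfl
  rw [e1, e2, muB, muB]
  have a1 : ∀ (j : Fin 5) (hj : j ≠ 4) (v : Hs Xs), inner ℂ (ee (cs j z)) (To good1 0 v) =
      inner ℂ (ee (cs (pi1 j) z)) v := by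
    intro j hj v
    rw [← star_To_zero_ee good1 j hj z, star_eq_adjoint, adjoint_inner_left]
  rw [mul_apply_eq_comp, mul_apply_eq_comp, mul_apply_eq_comp, mul_apply_eq_comp,
    a1 0 (by decide), a1 1 (by decide), To_zero_ee good1 0 (by decide),
    To_zero_ee good1 1 (by decide)]
  have p0 : pi1 0 = 1 := rfl
  have p1 : pi1 1 = 0 := rfl
  rw [p0, p1]
  ring

/-- The test element. -/
def yd : Dd := ⟨ss 2 * star (ss 0), mul_mem (ss_mem 2) (star_mem (ss_mem 0))⟩

lemma norm_So_le {f : Xs → Xs} (hf : Function.Injective f) : ‖So hf‖ ≤ 1 :=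
  LinearIsometry.norm_toContinuousLinearMap_le _

lemma norm_star_op {H : Type*} [NormedAddCommGroup H] [InnerProductSpace ℂ H] [CompleteSpace H]
    (S : H →L[ℂ] H) : ‖star S‖ = ‖S‖ := norm_star S

lemma norm_ydB : ‖ss 2 * star (ss 0)‖ ≤ 1 := by
  have h2 : ‖ss 2‖ ≤ 1 := norm_So_le _
  have h0 : ‖star (ss 0)‖ ≤ 1 := (norm_star_op (ss 0)).le.trans (norm_So_le _)
  calc ‖ss 2 * star (ss 0)‖ ≤ ‖ss 2‖ * ‖star (ss 0)‖ := norm_mul_le _ _
    _ ≤ 1 * 1 := by gcongr
    _ = 1 := one_mul 1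

lemma norm_yd : ‖yd‖ ≤ 1 := norm_ydB

lemma test_value (z : Xs) : mu z (Td good2 0 * yd) - mu z (yd * Td good2 0) = 1 / 2 := by
  rw [mu_apply, mu_apply]
  have e1 : (Td good2 0 * yd : Dd).1 = To good2 0 * (ss 2 * star (ss 0)) := rfl
  have e2 : (yd * Td good2 0 : Dd).1 = (ss 2 * star (ss 0)) * To good2 0 := rfl
  rw [e1, e2, muB, muB]
  simp only [mul_apply_eq_comp]
  have p0 : pi2 0 = 2 := rfl
  have p1 : pi2 1 = 3 := rfl
  have p2 : pi2 2 = 0 := rfl
  rw [To_zero_ee good2 0 (by decide), To_zero_ee good2 1 (by decide), p0, p1]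
  simp only [star_ss_ee]
  have d1 : ¬ ((0 : Fin 5) = 1) := by decide
  have d2 : ¬ ((0 : Fin 5) = 2) := by decide
  have d3 : ¬ ((0 : Fin 5) = 3) := by decide
  simp only [d1, d2, d3, if_true, if_false, map_zero, inner_zero_right]
  have e3 : ss 2 (ee z) = ee (cs 2 z) := So_ee _ _
  rw [e3, To_zero_ee good2 2 (by decide), p2, inner_ee_ee, if_pos rfl]
  ring

/-- The obstruction, abstractly. -/
lemma obstruction_gen {A : Type*} [CStarAlgebra A] (μ : A →L[ℂ] ℂ) (hμ : ‖μ‖ = 1) (a b y : A)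
    (hy : ‖y‖ ≤ 1) (ha : ∀ x, μ (a * x) = μ (x * a)) (hb : μ (b * y) - μ (y * b) = 1 / 2)
    (α : A ≃⋆ₐ[ℂ] A) (hα : ∀ x, μ (α x) = μ x) : 1 / 4 ≤ ‖b - α a‖ := by
  have h1 : μ (α a * y) = μ (y * α a) := by
    have e1 : α a * y = α (a * α.symm y) := by
      rw [map_mul]; simp
    have e2 : y * α a = α (α.symm y * a) := by
      rw [map_mul]; simp
    rw [e1, e2, hα, hα, ha]
  have h3 : μ ((b - α a) * y) - μ (y * (b - α a)) = 1 / 2 := by
    rw [sub_mul, mul_sub, map_sub, map_sub, ← hb, h1]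
    ring
  have b1 : ‖μ ((b - α a) * y)‖ ≤ ‖b - α a‖ := by
    calc ‖μ ((b - α a) * y)‖ ≤ ‖μ‖ * ‖(b - α a) * y‖ := μ.le_opNorm _
      _ ≤ 1 * (‖b - α a‖ * ‖y‖) := by
          rw [hμ]; gcongr; exact norm_mul_le _ _
      _ ≤ 1 * (‖b - α a‖ * 1) := by gcongr
      _ = _ := by ring
  have b2 : ‖μ (y * (b - α a))‖ ≤ ‖b - α a‖ := by
    calc ‖μ (y * (b - α a))‖ ≤ ‖μ‖ * ‖y * (b - α a)‖ := μ.le_opNorm _
      _ ≤ 1 * (‖y‖ * ‖b - α a‖) := by
          rw [hμ]; gcongr; exact norm_mul_le _ _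
      _ ≤ 1 * (1 * ‖b - α a‖) := by gcongr
      _ = _ := by ring
  have b3 : ‖(1 / 2 : ℂ)‖ ≤ 2 * ‖b - α a‖ := by
    rw [← h3]
    refine (norm_sub_le _ _).trans ?_
    linarith
  have h4 : ‖(1 / 2 : ℂ)‖ = 1 / 2 := by norm_num
  rw [h4] at b3
  linarith

/-- The obstruction. -/
lemma obstruction (z : Xs) (α : Dd ≃⋆ₐ[ℂ] Dd) (hα : ∀ x, mu z (α x) = mu z x) :
    1 / 4 ≤ ‖Td good2 0 - α (Td good1 0)‖ :=
  obstruction_gen (mu z) (mu_state z).2 _ _ yd norm_yd (central z) (test_value z) α hα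

end

end Pool.Agent.Lib.MP_ced2c5_an
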